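import Pool.Agent.L5helper98.NG.Defs

/-!
# Moments of the masses are at most those of the limit
-/

set_option autoImplicit false

open MeasureTheory ProbabilityTheory Filter Topology Set
open scoped ENNReal

namespace Pool.Agent.L5helper34.NG

open Pool.Agent.L5helper98.NG

noncomputable section

/-- tangent of `x^p` at `y` -/
def tg (p y x : ℝ) : ℝ := y ^ p + p * (y ^ p / y) * (x - y)

lemma tg_le {p y x : ℝ} (hp : 1 ≤ p) (hy : 0 < y) (hx : 0 ≤ x) : tg p y x ≤ x ^ p := by
  have h1 : -1 ≤ x / y - 1 := by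
    have : 0 ≤ x / y := div_nonneg hx hy.le
    linarith
  have h2 := one_add_mul_self_le_rpow_one_add h1 hp
  have h3 : (1 + (x / y - 1)) ^ p = x ^ p / y ^ p := by
    rw [show 1 + (x / y - 1) = x / y by ring, Real.div_rpow hx hy.le]
  have hyp : 0 < y ^ p := Real.rpow_pos_of_pos hy p
  rw [h3, le_div_iff₀ hyp] at h2
  calc tg p y x = (1 + p * (x / y - 1)) * y ^ p := by
        unfold tg; field_simp
    _ ≤ x ^ p := h2

/-- the approximations of `x^p` -/
def ph (p : ℝ) : ℕ → ℝ → ℝ
  | 0 => fun _ => 0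
  | N + 1 => fun x => max (ph p N x) (tg p (Real.exp (TopologicalSpace.denseSeq ℝ N)) x)

lemma ph_nonneg (p : ℝ) (N : ℕ) (x : ℝ) : 0 ≤ ph p N x := by
  induction N with
  | zero => exact le_rfl
  | succ N ih => exact ih.trans (le_max_left _ _)

lemma ph_convex (p : ℝ) (N : ℕ) : ConvexOn ℝ univ (ph p N) := by
  induction N with
  | zero => exact convexOn_const 0 convex_univ
  | succ N ih =>
    have h : ConvexOn ℝ univ (fun x => tg p (Real.exp (TopologicalSpace.denseSeq ℝ N)) x) := by
      generalize Real.exp (TopologicalSpace.denseSeq ℝ N) = y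
      refine ⟨convex_univ, fun a _ b _ s t hs ht hst => le_of_eq ?_⟩
      unfold tg
      simp only [smul_eq_mul]
      linear_combination (-(y ^ p - p * (y ^ p / y) * y)) * hst
    exact ih.sup h

lemma ph_lip (p : ℝ) (N : ℕ) : ∃ K : ℝ, 0 ≤ K ∧ ∀ x y, |ph p N x - ph p N y| ≤ K * |x - y| := by
  induction N with
  | zero => exact ⟨0, le_rfl, fun x y => by simp [ph]⟩
  | succ N ih =>
    obtain ⟨K, hK, h⟩ := ih
    set z := Real.exp (TopologicalSpace.denseSeq ℝ N) with hz
    refine ⟨K + |p * (z ^ p / z)|, add_nonneg hK (abs_nonneg _), fun x y => ?_⟩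
    have h1 : |tg p z x - tg p z y| = |p * (z ^ p / z)| * |x - y| := by
      unfold tg
      rw [← abs_mul]
      congr 1
      ring
    calc |ph p (N + 1) x - ph p (N + 1) y|
        = |max (ph p N x) (tg p z x) - max (ph p N y) (tg p z y)| := rfl
      _ ≤ max |ph p N x - ph p N y| |tg p z x - tg p z y| := abs_max_sub_max_le_max _ _ _ _
      _ ≤ K * |x - y| + |p * (z ^ p / z)| * |x - y| := by
          refine max_le ?_ ?_
          · have := mul_nonneg (abs_nonneg (p * (z ^ p / z))) (abs_nonneg (x - y))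
            linarith [h x y]
          · rw [h1]
            have := mul_nonneg hK (abs_nonneg (x - y))
            linarith
      _ = _ := by ring

lemma ph_le {p : ℝ} (hp : 1 ≤ p) (N : ℕ) {x : ℝ} (hx : 0 ≤ x) : ph p N x ≤ x ^ p := by
  induction N with
  | zero => exact Real.rpow_nonneg hx p
  | succ N ih => exact max_le ih (tg_le hp (Real.exp_pos _) hx)

lemma ph_mono (p x : ℝ) : Monotone fun N => ph p N x :=
  monotone_nat_of_le_succ fun N => le_max_left _ _

lemma ph_lim {p : ℝ} (hp : 1 ≤ p) {x : ℝ} (hx : 0 ≤ x) {c : ℝ} (hc : c < x ^ p) :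
    ∃ N, c < ph p N x := by
  rcases hx.eq_or_lt with rfl | hx
  · refine ⟨0, ?_⟩
    rw [Real.zero_rpow (by linarith)] at hc
    exact hc
  · have hcont : ContinuousAt (fun s : ℝ => tg p (Real.exp s) x) (Real.log x) := by
      have h1 : ContinuousAt (fun y : ℝ => tg p y x) (Real.exp (Real.log x)) := by
        rw [Real.exp_log hx]
        unfold tg
        have h2 : ContinuousAt (fun y : ℝ => y ^ p) x :=
          Real.continuousAt_rpow_const x p (Or.inl hx.ne')
        exact h2.add ((continuousAt_const.mul (h2.div continuousAt_id hx.ne')).mul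
          (continuousAt_const.sub continuousAt_id))
      exact ContinuousAt.comp h1 Real.continuous_exp.continuousAt
    have hval : tg p (Real.exp (Real.log x)) x = x ^ p := by
      rw [Real.exp_log hx]; unfold tg; ring
    have hev : ∀ᶠ s in 𝓝 (Real.log x), c < tg p (Real.exp s) x := by
      refine hcont.eventually (lt_mem_nhds ?_)
      simp only [hval]; exact hc
    obtain ⟨U, hU, hUo, hxU⟩ := eventually_nhds_iff.1 hev
    obtain ⟨N, hk⟩ := (TopologicalSpace.denseRange_denseSeq ℝ).exists_mem_open hUo ⟨_, hxU⟩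
    exact ⟨N + 1, lt_of_lt_of_le (hU _ hk) (le_max_right _ _)⟩

theorem SUB_holds (hCVX : St_CVX) (hMAS : St_MAS) : St_SUB := by
  intro d Ω _ P _ X hd hX β p hβ hp M hM n
  have hvol : volume (cube d) < ∞ := (isCompact_Icc (a := (0 : Fin d → ℝ)) (b := 1)).measure_lt_top
  have hmc : MeasurableSet (cube d) := measurableSet_Icc
  have hm := fun m => hMAS d Ω P X hX β hβ (cube d) hmc subset_rfl m
  set Z : ℕ → Ω → ℝ := fun m => mass P X β (cube d) m with hZ
  have hZm : ∀ m, Measurable (Z m) := fun m => (hm m).1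
  have hZ0 : ∀ m o, 0 ≤ Z m o := fun m => (hm m).2.1
  have hZi : ∀ m, Integrable (Z m) P := by
    intro m
    refine ⟨(hZm m).aestronglyMeasurable, ?_⟩
    rw [hasFiniteIntegral_iff_ofReal (Eventually.of_forall (hZ0 m)), (hm m).2.2.2]
    exact hvol
  have hM0 : ∀ᵐ o ∂P, 0 ≤ M o := by
    filter_upwards [hM.as] with o ho
    exact ge_of_tendsto' ho fun m => hZ0 m o
  -- differences
  have hfin : ∀ᶠ m in atTop, ∫⁻ o, ENNReal.ofReal |Z m o - M o| ∂P < ∞ :=
    hM.l1.eventually (gt_mem_nhds (by norm_num : (0 : ℝ≥0∞) < ∞))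
  have hdi : ∀ᶠ m in atTop, Integrable (fun o => Z m o - M o) P := by
    filter_upwards [hfin] with m hm'
    refine ⟨((hZm m).sub hM.meas).aestronglyMeasurable, ?_⟩
    rw [hasFiniteIntegral_iff_norm]
    simpa [Real.norm_eq_abs] using hm'
  have hMi : Integrable M P := by
    obtain ⟨m, hm'⟩ := hdi.exists
    have := (hZi m).sub hm'
    refine this.congr (Eventually.of_forall fun o => ?_)
    simp
  have key : ∀ N, ∫⁻ o, ENNReal.ofReal (ph p N (Z n o)) ∂P ≤ ∫⁻ o, ENNReal.ofReal (M o ^ p) ∂P := by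
    intro N
    obtain ⟨K, hK, hlip⟩ := ph_lip p N
    have hcont : Continuous (ph p N) := by
      have : LipschitzWith (Real.toNNReal K) (ph p N) := LipschitzWith.of_dist_le_mul fun x y => by
        rw [Real.dist_eq, Real.dist_eq, Real.coe_toNNReal _ hK]; exact hlip x y
      exact this.continuous
    have hint : ∀ Y : Ω → ℝ, Integrable Y P → Integrable (fun o => ph p N (Y o)) P := by
      intro Y hY
      have hb : Integrable (fun o => |ph p N 0| + K * |Y o|) P :=
        (integrable_const _).add (hY.abs.const_mul K)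
      refine hb.mono' (hcont.measurable.comp_aemeasurable hY.1.aemeasurable).aestronglyMeasurable
        (Eventually.of_forall fun o => ?_)
      have h1 := hlip (Y o) 0
      rw [sub_zero] at h1
      rw [Real.norm_eq_abs]
      have h2 := abs_add_le (ph p N (Y o) - ph p N 0) (ph p N 0)
      rw [sub_add_cancel] at h2
      linarith
    -- the integrals converge
    have hlim : Tendsto (fun m => ∫ o, ph p N (Z m o) ∂P) atTop (𝓝 (∫ o, ph p N (M o) ∂P)) := by
      rw [tendsto_iff_dist_tendsto_zero]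
      have hl1 : Tendsto (fun m => K * (∫⁻ o, ENNReal.ofReal |Z m o - M o| ∂P).toReal) atTop
          (𝓝 0) := by
        have := ((ENNReal.tendsto_toReal (by norm_num : (0 : ℝ≥0∞) ≠ ∞)).comp hM.l1).const_mul K
        simpa using this
      refine squeeze_zero' (Eventually.of_forall fun _ => dist_nonneg) ?_ hl1
      filter_upwards [hdi] with m hm'
      rw [Real.dist_eq, ← integral_sub (hint _ (hZi m)) (hint _ hMi)]
      calc |∫ o, (ph p N (Z m o) - ph p N (M o)) ∂P|
          ≤ ∫ o, |ph p N (Z m o) - ph p N (M o)| ∂P := abs_integral_le_integral_abs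
        _ ≤ ∫ o, K * |Z m o - M o| ∂P := by
            refine integral_mono_of_nonneg (Eventually.of_forall fun _ => abs_nonneg _)
              (hm'.abs.const_mul K) (Eventually.of_forall fun o => hlip _ _)
        _ = K * (∫⁻ o, ENNReal.ofReal |Z m o - M o| ∂P).toReal := by
            rw [integral_const_mul, integral_eq_lintegral_of_nonneg_ae
              (Eventually.of_forall fun _ => abs_nonneg _) hm'.abs.1]
    have hle : ∫ o, ph p N (Z n o) ∂P ≤ ∫ o, ph p N (M o) ∂P := by
      refine ge_of_tendsto hlim ?_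
      filter_upwards [eventually_ge_atTop n] with m hnm
      exact hCVX d Ω P X hX β hβ (ph p N) (ph_convex p N) (ph_nonneg p N) ⟨K, hlip⟩ n m hnm
    calc ∫⁻ o, ENNReal.ofReal (ph p N (Z n o)) ∂P
        = ENNReal.ofReal (∫ o, ph p N (Z n o) ∂P) :=
          (ofReal_integral_eq_lintegral_ofReal (hint _ (hZi n))
            (Eventually.of_forall fun _ => ph_nonneg _ _ _)).symm
      _ ≤ ENNReal.ofReal (∫ o, ph p N (M o) ∂P) := ENNReal.ofReal_le_ofReal hle
      _ = ∫⁻ o, ENNReal.ofReal (ph p N (M o)) ∂P :=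
          ofReal_integral_eq_lintegral_ofReal (hint _ hMi)
            (Eventually.of_forall fun _ => ph_nonneg _ _ _)
      _ ≤ ∫⁻ o, ENNReal.ofReal (M o ^ p) ∂P := by
          refine lintegral_mono_ae ?_
          filter_upwards [hM0] with o ho
          exact ENNReal.ofReal_le_ofReal (ph_le hp N ho)
  have hsup : ∀ o, ENNReal.ofReal (Z n o ^ p) = ⨆ N, ENNReal.ofReal (ph p N (Z n o)) := by
    intro o
    refine le_antisymm ?_ (iSup_le fun N => ENNReal.ofReal_le_ofReal (ph_le hp N (hZ0 n o)))
    refine le_of_forall_lt fun c hc => ?_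
    have hcf : c ≠ ∞ := (hc.trans ENNReal.ofReal_lt_top).ne
    have hc' : c.toReal < Z n o ^ p := by
      rw [← ENNReal.ofReal_toReal hcf] at hc
      exact (ENNReal.ofReal_lt_ofReal_iff_of_nonneg ENNReal.toReal_nonneg).1 hc
    obtain ⟨N, hN⟩ := ph_lim hp (hZ0 n o) hc'
    refine lt_of_lt_of_le ?_ (le_iSup _ N)
    rw [← ENNReal.ofReal_toReal hcf]
    exact (ENNReal.ofReal_lt_ofReal_iff_of_nonneg ENNReal.toReal_nonneg).2 hN
  have hmeasN : ∀ N, Measurable fun o => ENNReal.ofReal (ph p N (Z n o)) := by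
    intro N
    obtain ⟨K, hK, hlip⟩ := ph_lip p N
    have : LipschitzWith (Real.toNNReal K) (ph p N) := LipschitzWith.of_dist_le_mul fun x y => by
      rw [Real.dist_eq, Real.dist_eq, Real.coe_toNNReal _ hK]; exact hlip x y
    exact (this.continuous.measurable.comp (hZm n)).ennreal_ofReal
  calc ∫⁻ o, ENNReal.ofReal (Z n o ^ p) ∂P
      = ∫⁻ o, ⨆ N, ENNReal.ofReal (ph p N (Z n o)) ∂P := lintegral_congr hsup
    _ = ⨆ N, ∫⁻ o, ENNReal.ofReal (ph p N (Z n o)) ∂P := by
        refine lintegral_iSup hmeasN fun N N' h o => ?_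
        exact ENNReal.ofReal_le_ofReal (ph_mono p _ h)
    _ ≤ _ := iSup_le key

end

end Pool.Agent.L5helper34.NG
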